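import Pool.Agent.H313.GE.Avm

/-!
# The analytic rank of an elliptic curve over the twists of abelian extensions

Let `k` be a field with `q` elements, `Z` the smooth projective curve over `k` with the equations
`G i = 0`, `K₀` its function field, `E` a nonconstant elliptic curve over `K₀`, `ℓ` a prime, `F i`
(`i < m`) forms of degrees divisible by `N_i = ℓ ^ (a i)` whose divisors on `Z` are disjoint and consist
of points with multiplicities prime to `ℓ` at which `E` has good or multiplicative reduction, and `χ i`
characters of the multiplicative group of `k` of the orders `N_i` (which divide `q - 1`). For an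
extension `k'` of `k` of degree `r` with `q'` elements and `v = (v i)`, `v i` not zero in `k'`, let
`K_v` be the function field of the curve `w_i ^ (N_i) = v_i F_i` (`i < m`) over `Z ⊗ k'`: an abelian
extension of `K₀ k'` with the group `∏ μ_(N_i)`, ramified at the zeros of the `F_i`.

For the closed points `z` of `Z` let `P z` be `1 - a_z T + q_z T ^ 2` if `E` has good reduction at
`z`, and `1 - a_z T` otherwise. For `j = (j i)`, `0 ≤ j i < N_i`, let `I(j)` be the set of the `i` with
`j i ≠ 0`. For `I(j)` not empty let `V j` be the `L`-function of `E` over `K₀`, twisted by the product of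
the characters of the abelian extension which belong to the `χ i ^ (j i)`: this is a polynomial, and
the inverse of `twistedProduct`. The `L`-function of `E` over `K_v` is the product of the one over
`K₀ k'` and of the polynomials with the reciprocal zeros `χ_j(N v) α ^ r`, where `α` runs through the
reciprocal zeros of `V j`, `N` is the norm from `k'` to `k` and `χ_j(N v)` the product of the
`χ i ^ (j i) (N (v i))`. So the analytic rank of `E` over `K_v` is the one over `K₀ k'` plus the number
`newOrder` of the pairs of a `j` and an `α` such that `χ_j(N v) α ^ r = q ^ r`.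
-/

set_option autoImplicit false
set_option linter.all false
set_option maxHeartbeats 4000000

open Polynomial NumberField Module

namespace Pool.Agent.Results.MP_ff7320_nt.AbelianExtensionsTwists

open Pool.Agent.H313.GE.Pts

/-- The set of the `i` with `j i ≠ 0`. -/
def supp {m : ℕ} {N : Fin m → ℕ} (j : ∀ i, Fin (N i)) : Finset (Fin m) :=
  Finset.univ.filter fun i => (j i : ℕ) ≠ 0

open Classical in
/-- The set of the `j` with `I(j)` not empty. -/
noncomputable def nonzero {m : ℕ} (N : Fin m → ℕ) : Finset (∀ i, Fin (N i)) :=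
  Finset.univ.filter fun j => (supp j).Nonempty

open Classical in
/-- The number of the pairs of a `j` with `I(j)` not empty and a zero `x = 1 / α` of `V j`, with
multiplicities, such that `(q x) ^ r = χ_j(N v)`, for `v` in the group of the tuples of units of the
extension `k'` of degree `r`. -/
noncomputable def newOrder {k K : Type} [Field k] [Field K] [NumberField K] {m : ℕ}
    {N : Fin m → ℕ} (χ : Fin m → MulChar k (𝓞 K)) (V : (∀ i, Fin (N i)) → (𝓞 K)[X])
    {k' : Type} [Field k'] [Algebra k k'] (v : Fin m → k'ˣ) : ℕ :=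
  ∑ j ∈ nonzero N, Multiset.card ((((V j).map (algebraMap (𝓞 K) K)).map
    (algebraMap K (AlgebraicClosure K))).roots.filter fun x =>
      ((Nat.card k : AlgebraicClosure K) * x) ^ finrank k k' =
        algebraMap K (AlgebraicClosure K) (algebraMap (𝓞 K) K
          (∏ i, (χ i ^ (j i : ℕ)) (Algebra.norm k (v i : k')))))

/-- **The analytic rank of an elliptic curve over the twists of abelian extensions.**

For every nonempty set `I` of indices `i` let `L I` be the polynomial `L(E, T) ∏ P z (T ^ (deg z))`, the
product over the points `z` where an `F i`, `i ∈ I`, is zero, for the `L`-function `L(E, T)` of `E`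
over `K₀`. Let `L I` be modulo `ℓ` the product of the cyclotomic polynomials `Φ_n` for `n` in a multiset
`t I`, and of a polynomial which is not divisible by any `Φ_n` with `n` prime to `ℓ`, and let `μ I`
be the sum of the `φ(n)`, `n` in `t I`. Then for all finite extensions `k'` of `k`, with `q'` elements:

1. The analytic rank of `E` over `K_v` is at most the one over `K₀ k'` plus the sum of the `μ (I(j))`
over all `j` with `I(j)` not empty, for all `v` and `k'`. If all `μ I` are zero, the analytic ranks are
the same, and the conjecture of Birch and Swinnerton-Dyer holds for `E` over all the `K_v`, for all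
`k'`, if it holds for `E` over all the `K₀ k'`.

2. The average of the difference of the analytic ranks over the `(q' - 1) ^ m` tuples `v` is at most
the sum of the `μ (I(j)) / ord(j)`, where `ord(j)` is the order of the tuple of the characters
`χ i ^ (j i)`. If this sum is smaller than one, then for at least the proportion one minus this sum of
the tuples `v`, for every `k'`, the conjecture of Birch and Swinnerton-Dyer holds for `E` over `K_v` if
it holds for `E` over `K₀ k'`; the ranks are then the same, and the Tate-Shafarevich group of `E`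
over `K_v` is finite. -/
theorem result (ℓ : ℕ) (hℓ : ℓ.Prime) (k : Type) [Field k] [Finite k]
    (K : Type) [Field K] [NumberField K] [IsGalois ℚ K] (M s m : ℕ)
    (G : Fin s → MvPolynomial (Fin (M + 1)) k) (F : Fin m → MvPolynomial (Fin (M + 1)) k)
    (P : Pt G → ℤ[X]) (hP : ∀ z, (P z).coeff 0 = 1)
    (a : Fin m → ℕ) (χ : Fin m → MulChar k (𝓞 K)) (hχ : ∀ i, orderOf (χ i) = ℓ ^ a i)
    (V : (∀ i, Fin (ℓ ^ a i)) → (𝓞 K)[X])
    (hV : ∀ j, (supp j).Nonempty →
      twistedProduct G F P (fun i => χ i ^ (j i : ℕ)) (supp j) * (V j : PowerSeries (𝓞 K)) = 1)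
    (L : Finset (Fin m) → ℤ[X]) (t : Finset (Fin m) → Multiset ℕ)
    (H : Finset (Fin m) → (ZMod ℓ)[X])
    (hL : ∀ I : Finset (Fin m), I.Nonempty →
      openProduct G F P I * (L I : PowerSeries ℤ) = 1)
    (hI : ∀ I : Finset (Fin m), I.Nonempty → Splits ℓ (L I) 1 (t I) (H I) ∧
      NoCyclotomic ℓ (H I))
    (μ : Finset (Fin m) → ℕ) (hμ : ∀ I, μ I = ((t I).map Nat.totient).sum)
    (k' : Type) [Field k'] [Finite k'] [Algebra k k'] :
    (∀ v : Fin m → k'ˣ, newOrder χ V v ≤ ∑ j ∈ nonzero fun i => ℓ ^ a i, μ (supp j)) ∧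
    ∑ᶠ v : Fin m → k'ˣ, (newOrder χ V v : ℚ) ≤ ((Nat.card k' - 1 : ℕ) : ℚ) ^ m *
      ∑ j ∈ nonzero fun i => ℓ ^ a i,
        (μ (supp j) : ℚ) / (orderOf fun i => χ i ^ (j i : ℕ) : ℕ) := by
  classical
  have hF : Fact ℓ.Prime := ⟨hℓ⟩
  have := Fintype.ofFinite (Fin m → k'ˣ)
  have hr : 0 < finrank k k' := Module.finrank_pos
  have heven : ¬ Even 1 := by decide
  set φ : 𝓞 K →+* AlgebraicClosure K :=
    (algebraMap K (AlgebraicClosure K)).comp (algebraMap (𝓞 K) K) with hφd
  have hφ : Function.Injective φ :=
    (algebraMap K (AlgebraicClosure K)).injective.comp RingOfIntegers.coe_injective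
  have hone : ∀ i, χ i ^ ℓ ^ a i = 1 := fun i => by rw [← hχ i, pow_orderOf_eq_one]
  -- the zeros
  have hgeo : ∀ j ∈ nonzero (fun i => ℓ ^ a i), Pool.Agent.H313.GE.geoO (Nat.card k)
      (((V j).map (algebraMap (𝓞 K) K)).map (algebraMap K (AlgebraicClosure K))) ≤
        μ (supp j) := by
    intro j hj
    have hj' : (supp j).Nonempty := (Finset.mem_filter.1 hj).2
    obtain ⟨i, hi⟩ := hj'
    have hai : a i ≠ 0 := by
      intro h1
      have h2 := (j i).2
      have h3 : (j i : ℕ) ≠ 0 := (Finset.mem_filter.1 hi).2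
      have h4 : ℓ ^ a i = 1 := by rw [h1, pow_zero]
      omega
    have hdk : ℓ ∣ Nat.card k - 1 :=
      (dvd_pow_self ℓ hai).trans (Pool.Agent.TH639.CK.card_dvd (hχ i))
    have hk1 : (Nat.card k : ZMod ℓ) = 1 := by
      have h1 : 1 ≤ Nat.card k := Nat.card_pos
      have h2 : ((Nat.card k - 1 : ℕ) : ZMod ℓ) = 0 := (ZMod.natCast_eq_zero_iff _ _).2 hdk
      rw [Nat.cast_sub h1, Nat.cast_one, sub_eq_zero] at h2
      exact h2
    have hj'' : (supp j).Nonempty := ⟨i, hi⟩
    rw [hμ]
    refine twisted_geo G F P hP (fun i => χ i ^ (j i : ℕ)) (supp j) a ?_ (n := 1)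
      ⟨fun h => absurd h heven, fun _ => hV j hj''⟩ (L₁ := L (supp j)) (L₂ := 1)
      ⟨by rw [coeff_one_zero], fun h => absurd h heven, fun _ => ?_⟩ (hI _ hj'').1
      (hI _ hj'').2 Nat.card_pos.ne' hk1 _
    · intro i _
      rw [← pow_mul, mul_comm, pow_mul, hone i, one_pow]
    · rw [hL _ hj'', Polynomial.coe_one]
  -- the order of the values
  set e : ℕ := ∏ i, ℓ ^ a i with he
  have he0 : 0 < e := Finset.prod_pos fun i _ => pow_pos hℓ.pos _
  have hψe : ∀ j : (∀ i, Fin (ℓ ^ a i)), (fun i => χ i ^ (j i : ℕ)) ^ e = 1 := by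
    intro j
    funext i
    rw [Pi.pow_apply, Pi.one_apply]
    obtain ⟨d, hd⟩ := Finset.dvd_prod_of_mem (fun i => ℓ ^ a i) (Finset.mem_univ i)
    rw [he, hd, ← pow_mul, mul_comm (j i : ℕ), mul_assoc, pow_mul, hone i, one_pow]
  have hnew : ∀ v : Fin m → k'ˣ, newOrder χ V v = ∑ j ∈ nonzero fun i => ℓ ^ a i,
      Multiset.card ((((V j).map (algebraMap (𝓞 K) K)).map
        (algebraMap K (AlgebraicClosure K))).roots.filter fun x =>
          ((Nat.card k : AlgebraicClosure K) * x) ^ finrank k k' =
            φ (∏ i, (χ i ^ (j i : ℕ)) (Algebra.norm k (v i : k')))) := fun v => rfl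
  refine ⟨?_, ?_⟩
  · intro v
    rw [hnew]
    refine Finset.sum_le_sum fun j hj => ?_
    refine le_trans ?_ (hgeo j hj)
    unfold Pool.Agent.H313.GE.geoO
    apply Multiset.card_le_card
    apply Multiset.monotone_filter_right
    intro x hx
    refine ⟨finrank k k' * e, Nat.mul_pos hr he0, ?_⟩
    rw [pow_mul, hx, ← map_pow, Pool.Agent.H313.GE.value_root _ he0 (hψe j) k' v, map_one]
  · rw [finsum_eq_sum_of_fintype]
    have h1 : ∑ v : Fin m → k'ˣ, (newOrder χ V v : ℚ) = ∑ j ∈ nonzero fun i => ℓ ^ a i,
        ((∑ v : Fin m → k'ˣ, Multiset.card ((((V j).map (algebraMap (𝓞 K) K)).map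
        (algebraMap K (AlgebraicClosure K))).roots.filter fun x =>
          ((Nat.card k : AlgebraicClosure K) * x) ^ finrank k k' =
            φ (∏ i, (χ i ^ (j i : ℕ)) (Algebra.norm k (v i : k')))) : ℕ) : ℚ) := by
      rw [← Nat.cast_sum, ← Nat.cast_sum, Finset.sum_comm]
      rfl
    rw [h1, Finset.mul_sum]
    refine Finset.sum_le_sum fun j hj => ?_
    have h2 := (Pool.Agent.H313.GE.sum_multi φ hφ (fun i => χ i ^ (j i : ℕ)) he0 (hψe j) k'
      ((((V j).map (algebraMap (𝓞 K) K)).map (algebraMap K (AlgebraicClosure K))).roots)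
      (Nat.card k) (finrank k k') hr).trans (Nat.mul_le_mul_left _ (hgeo j hj))
    have h3 : 0 < orderOf (fun i => χ i ^ (j i : ℕ)) :=
      orderOf_pos_iff.2 (isOfFinOrder_iff_pow_eq_one.2 ⟨e, he0, hψe j⟩)
    rw [← mul_div_assoc, le_div_iff₀ (by exact_mod_cast h3)]
    exact_mod_cast h2

end Pool.Agent.Results.MP_ff7320_nt.AbelianExtensionsTwists
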