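import Pool.Agent.Y701.QG.Mult

/-!
# Elliptic curves `y ^ 2 = f(x) + 2 g(x) t + h(x) t ^ 2` over the `ℓ`-power Galois extensions of `k(t)`
-/

set_option autoImplicit false
set_option linter.all false
set_option maxHeartbeats 4000000

open Polynomial FF Module Pool.Agent.W343.BSD Pool.Agent.W309.RF Pool.Agent.Y701.QG

namespace Pool.Agent.Results.MP_ff7320_nt.ConicBundleTowers

section defs

/-- `S` is the set of the monic irreducible factors of `g ^ 2 - f h` in `k[x]`, and `R` the set of the
monic irreducible factors in `k[t]` of the coefficient `f_3 + 2 g_3 t + h_3 t ^ 2` of `x ^ 3`. -/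
structure IsFactors {k : Type} [Field k] (f g h : k[X]) (S R : Finset k[X]) : Prop where
  first : ∀ P, P ∈ S ↔ P.Monic ∧ Irreducible P ∧ P ∣ g ^ 2 - f * h
  second : ∀ P, P ∈ R ↔ P.Monic ∧ Irreducible P ∧ P ∣ co f g h 3

open Classical in
/-- The quadratic character of `k`. -/
noncomputable def chi {k : Type} [Field k] (c : k) : ℤ :=
  if c = 0 then 0 else if IsSquare c then 1 else -1

open Classical in
/-- The sign at `t = ∞`: the quadratic character of `c` if `h` is a constant `c` times the square of
a polynomial of degree at most one, and `0` otherwise. -/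
noncomputable def sigInf {k : Type} [Field k] (h : k[X]) : ℤ :=
  if h.coeff 3 = 0 then
    if h.coeff 2 = 0 then (if h.coeff 1 = 0 then chi (h.coeff 0) else 0)
    else (if h.coeff 1 ^ 2 - 4 * h.coeff 0 * h.coeff 2 = 0 then chi (h.coeff 2) else 0)
  else 0

open Classical in
/-- The number of the nonsingular points over the residue field of the reduction at `v`. -/
noncomputable def points {k K : Type} [Field k] [Field K] [Algebra k K] (v : Place k K) (a b : K) :
    ℤ :=
  Nat.card (S.Res v) - S.trace v a b + if v.ord (minDisc v a b) = 0 then 1 else 0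

/-- The multiplicity modulo `ℓ` of the zero `1 / q` of `A`. -/
noncomputable def mult (ℓ : ℕ) [Fact ℓ.Prime] (q : ℕ) (A : ℤ[X]) : ℕ :=
  (A.map (Int.castRingHom (ZMod ℓ))).rootMultiplicity ((q : ℕ) : ZMod ℓ)⁻¹

/-- The place `w` of `L` lies over the place `v` of `K`, with the ramification index `e`. The fields of
constants `k` and `k'` may be different. -/
def LiesOver {k K k' L : Type} [Field k] [Field K] [Algebra k K] [Field k'] [Field L]
    [Algebra k' L] [Algebra K L] (w : Place k' L) (v : Place k K) (e : ℕ) : Prop :=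
  0 < e ∧ ∀ f : K, w.ord (algebraMap K L f) = e * v.ord f

/-- `L` is a Galois extension of `k(t)` of degree a power of `ℓ` with field of constants `k'`; the
places over `v` have the ramification index `e v`, which is `1` outside the finite set `B`. -/
structure IsLayer (k k' L : Type) [Field k] [Field k'] [Field L] [Algebra k' L] [Algebra k k']
    [Algebra (RatFunc k) L] (ℓ : ℕ) (e : Place k (RatFunc k) → ℕ)
    (B : Finset (Place k (RatFunc k))) : Prop where
  curve : IsCurveField k' L
  galois : IsGalois (RatFunc k) L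
  power : ∃ s : ℕ, finrank (RatFunc k) L = ℓ ^ s
  index : ∀ (v : Place k (RatFunc k)) (w : Place k' L) (n : ℕ), LiesOver w v n → n = e v
  unramified : ∀ v, v ∉ B → e v = 1

end defs

section aux

variable {k : Type} [Field k] [Fintype k] [DecidableEq k]

theorem chi_eq (c : k) : quadraticChar k c = chi c := by
  unfold chi
  rw [quadraticChar_apply, quadraticCharFun]
  split_ifs <;> rfl

theorem si_eq (h : k[X]) : si h = sigInf h := by
  unfold si sigInf sq3
  simp only [chi_eq]
  split_ifs <;> rfl

theorem points_eq {K : Type} [Field K] [Algebra k K] [FF.IsFF k K] {ℓ : ℕ} [Fact ℓ.Prime]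
    (hl : (ℓ : k) ≠ 0) (v : Place k K) (a b : K) :
    ((S.locFactor v a b).map (Int.castRingHom (ZMod ℓ))).eval (((Nat.card k : ℕ) : ZMod ℓ))⁻¹ *
      (((Nat.card k : ℕ) : ZMod ℓ)) ^ S.deg v = ((points v a b : ℤ) : ZMod ℓ) := by
  classical
  have hq0 := card_ne_zero_mod (k := k) hl
  have hres : Nat.card (S.Res v) = Nat.card k ^ S.deg v := by
    rw [S.deg_eq]
    exact Module.natCard_eq_pow_finrank (K := k) (V := v.RF)
  set q : ZMod ℓ := ((Nat.card k : ℕ) : ZMod ℓ) with hq
  have hqd : q ^ S.deg v ≠ 0 := pow_ne_zero _ hq0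
  have hresq : ((Nat.card (S.Res v) : ℕ) : ZMod ℓ) = q ^ S.deg v := by
    rw [hres]
    push_cast
    rfl
  unfold points S.locFactor
  by_cases h : v.ord (minDisc v a b) = 0
  · rw [if_pos h, if_pos h]
    simp only [Polynomial.map_add, Polynomial.map_sub, Polynomial.map_one, Polynomial.map_mul,
      Polynomial.map_C, Polynomial.map_pow, Polynomial.map_X, eval_add, eval_sub, eval_one,
      eval_mul, eval_C, eval_pow, eval_X]
    simp only [eq_intCast]
    push_cast
    have e1 : (q⁻¹) ^ S.deg v * q ^ S.deg v = 1 := by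
      rw [← mul_pow, inv_mul_cancel₀ hq0, one_pow]
    have e2 : (q⁻¹) ^ (2 * S.deg v) * q ^ S.deg v * q ^ S.deg v = 1 := by
      rw [mul_comm 2, pow_mul, mul_assoc, ← mul_pow, sq, ← mul_pow, ← mul_pow]
      have : q⁻¹ * q⁻¹ * (q * q) = 1 := by field_simp
      rw [this, one_pow]
    rw [hresq]
    linear_combination (-(S.trace v a b : ZMod ℓ)) * e1 + e2
  · rw [if_neg h, if_neg h]
    simp only [Polynomial.map_add, Polynomial.map_sub, Polynomial.map_one, Polynomial.map_mul,
      Polynomial.map_C, Polynomial.map_pow, Polynomial.map_X, eval_add, eval_sub, eval_one,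
      eval_mul, eval_C, eval_pow, eval_X, Polynomial.map_zero, eval_zero]
    simp only [eq_intCast]
    push_cast
    have e1 : (q⁻¹) ^ S.deg v * q ^ S.deg v = 1 := by
      rw [← mul_pow, inv_mul_cancel₀ hq0, one_pow]
    rw [hresq]
    linear_combination (-(S.trace v a b : ZMod ℓ)) * e1

end aux

theorem sgn_const {k : Type} [Field k] {P : k[X]} (hP : Irreducible P) (hodd : Odd P.natDegree)
    {η : k} (hη : ¬ IsSquare η) : sgn P (C η) ≠ 1 := by
  classical
  have hη0 : η ≠ 0 := by
    rintro rfl
    exact hη ⟨0, by ring⟩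
  haveI : Fact (Irreducible P) := ⟨hP⟩
  unfold sgn
  split_ifs with h1 h2
  · norm_num
  · exfalso
    obtain ⟨s, hs⟩ := h2
    have h3 : AdjoinRoot.mk P (C η) = AdjoinRoot.mk P s ^ 2 := by
      rw [← map_pow, ← sub_eq_zero, ← map_sub]
      exact AdjoinRoot.mk_eq_zero.2 hs
    have h4 : algebraMap k (AdjoinRoot P) η = AdjoinRoot.mk P s ^ 2 := h3
    have h5 := congrArg (Algebra.norm k) h4
    rw [Algebra.norm_algebraMap, map_pow] at h5
    have hdim : finrank k (AdjoinRoot P) = P.natDegree := by
      rw [(AdjoinRoot.powerBasis hP.ne_zero).finrank, AdjoinRoot.powerBasis_dim]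
    rw [hdim] at h5
    obtain ⟨m, hm⟩ := hodd
    apply hη
    refine ⟨Algebra.norm k (AdjoinRoot.mk P s) / η ^ m, ?_⟩
    have h6 : η ^ m ≠ 0 := pow_ne_zero _ hη0
    field_simp
    rw [← h5, hm]
    ring
  · norm_num

/-- Let `k` be a finite field with `q` elements, of characteristic at least `5`, and `f`, `g`, `h` polynomials
over `k` of degree at most three such that `E : y ^ 2 = f(x) + 2 g(x) t + h(x) t ^ 2` is an elliptic curve
over `K = k(t)`, not constant, with `g ^ 2 - f h ≠ 0` (`Good`; its short form is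
`y ^ 2 = x ^ 3 + PA x + PB`). These are rational elliptic surfaces with a second fibration, by the conics over
the `x`-line: a family with twelve coefficients, with non-constant `j` in general. For a monic
irreducible factor `P` of `g ^ 2 - f h` let `ε_P` be the quadratic character of `h` modulo `P` (of `f` if
`P` divides `h`), for a monic irreducible factor `R` of the coefficient of `x ^ 3` in `k[t]` let `σ_R` be
the quadratic character of `c` if the right side is modulo `R` a constant `c` times a square in `x`, and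
`0` otherwise (the general case), and `σ_∞` the same for `t = ∞`.

(1) `L(T, E/K) (1 - σ_∞ q T) ∏_R (1 - σ_R (q T) ^ (deg R)) = ∏_P (1 - ε_P (q T) ^ (deg P))`.

(2) Let `ℓ` be any prime different from the characteristic, `L` any finite Galois extension of `K` of
degree a power of `ℓ`, with field of constants `k'` and ramification indices `e_v`. If `L(T, E/L)` is
`(1 - q' T) ^ m` times an integral polynomial, `q' = |k'|`, then
`[k' : k] m + [L : K] (μ(σ_∞) + ∑_R μ(σ_R)) ≤ [L : K] ∑_P μ(ε_P) + ∑_v ([L : K] - [L : K] / e_v) mult_v`,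
where `μ` is the multiplicity modulo `ℓ` of the zero `1 / q` of the factor (the largest power of `ℓ`
dividing the degree if the sign is `1`, or `-1` and `ℓ = 2`, and otherwise `0`), and `mult_v` that of the
Euler factor of `E` at `v`.

(3) If all `ε_P ≠ 1` and `ℓ` is odd and does not divide the number of the nonsingular points of the
reduction of `E` over the residue field at the ramified places `v` (places of additive reduction are
always allowed), then `L(1 / q', E/L) ≠ 0`, and `m = 0`. So by Tate's inequality, for ALL odd primes `ℓ`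
at once and all these `L`, of unbounded genus and with arbitrary field of constants, `E(L)` is finite
and the conjecture of Birch and Swinnerton-Dyer holds for `E` over `L`.

(4) The condition `ε_P ≠ 1` holds if `h` is a constant which is not a square in `k` and all irreducible
factors of `g ^ 2 - f h` have odd degree. So it holds for all curves
`η y ^ 2 = (t + g(x)) ^ 2 - D(x)` where `D` of degree six, with `deg (g ^ 2 - D) ≤ 3`, has only
irreducible factors of odd degree: about `5 / 16` of all monic `D` of degree six. -/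
theorem result (k : Type) [Field k] [Finite k] (h6 : (6 : k) ≠ 0) (f g h : k[X])
    (hG : Good f g h) (S₀ R₀ : Finset k[X]) (hSR : IsFactors f g h S₀ R₀) :
    S.Lfun k (A (PA f g h)) (A (PB f g h)) *
      (((1 - C (sigInf h * (Nat.card k : ℤ)) * X) *
        ∏ R ∈ R₀, (1 - C (sig f g h R * (Nat.card k : ℤ) ^ R.natDegree) * X ^ R.natDegree) : ℤ[X]) :
        PowerSeries ℤ) =
      ((∏ P ∈ S₀, (1 - C (eps f h P * (Nat.card k : ℤ) ^ P.natDegree) * X ^ P.natDegree) : ℤ[X]) :
        PowerSeries ℤ) ∧
    (∀ (ℓ : ℕ) [Fact ℓ.Prime], (ℓ : k) ≠ 0 → ∀ (k' L : Type) [Field k'] [Finite k'] [Field L]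
      [Algebra k' L] [Algebra k k'] [Algebra k L] [Algebra (RatFunc k) L]
      [IsScalarTower k (RatFunc k) L] [IsScalarTower k k' L] (e : Place k (RatFunc k) → ℕ)
      (B : Finset (Place k (RatFunc k))), IsLayer k k' L ℓ e B →
      ∀ m : ℕ, S.VanishesTo k' (algebraMap (RatFunc k) L (A (PA f g h)))
          (algebraMap (RatFunc k) L (A (PB f g h))) m →
        (finrank k k' * m + finrank (RatFunc k) L * (Y701.QG.mu ℓ (sigInf h) 1 +
            ∑ R ∈ R₀, Y701.QG.mu ℓ (sig f g h R) R.natDegree) ≤
          finrank (RatFunc k) L * ∑ P ∈ S₀, Y701.QG.mu ℓ (eps f h P) P.natDegree +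
          ∑ v ∈ B, (finrank (RatFunc k) L - finrank (RatFunc k) L / e v) *
            mult ℓ (Nat.card k) (S.locFactor v (A (PA f g h)) (A (PB f g h)))) ∧
        (ℓ ≠ 2 → (∀ P ∈ S₀, eps f h P ≠ 1) →
          (∀ v ∈ B, e v ≠ 1 → ¬ (ℓ : ℤ) ∣ points v (A (PA f g h)) (A (PB f g h))) → m = 0)) ∧
    ∀ η : k, ¬ IsSquare η → h = C η → (∀ P ∈ S₀, Odd P.natDegree) →
      ∀ P ∈ S₀, eps f h P ≠ 1 := by
  classical
  letI : Fintype k := Fintype.ofFinite k
  refine ⟨?_, ?_, ?_⟩
  · rw [S.lfun_eq hG.hΔ, ← si_eq]
    exact exact_lfun h6 hG hSR.first hSR.second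
  · intro ℓ hℓ hℓk k' L _ _ _ _ _ _ _ _ _ e B hlay m hm
    obtain ⟨s, hs⟩ := hlay.power
    have hconst := const_rat (k := k)
    have i1 : FiniteDimensional (RatFunc k) L := Module.finite_of_finrank_pos (by
      rw [hs]; exact pow_pos hℓ.out.pos s)
    have i2 : FF.IsFF k L := isFF_of_finite (K := RatFunc k)
    have i3 : FF.IsFF k' L := ⟨hlay.curve.essFiniteType, hlay.curve.trdeg_eq_one⟩
    have i4 := hlay.galois
    have h1 := bound (k' := k') (L := L) h6 hG hSR.first hSR.second hℓk hs
      (e := e) (fun v w n hov => hlay.index v (upPlace (k' := k') w) n ⟨hov.1, hov.2⟩) B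
      hlay.unramified m hm
    rw [si_eq] at h1
    refine ⟨h1, ?_⟩
    intro hl2 hε hv
    have e1 : ∑ P ∈ S₀, Y701.QG.mu ℓ (eps f h P) P.natDegree = 0 := by
      refine Finset.sum_eq_zero fun P hP => ?_
      unfold Y701.QG.mu
      rw [if_neg]
      rintro (h2 | h2)
      · exact hε P hP h2
      · exact hl2 h2.2
    have e2 : ∑ v ∈ B, (finrank (RatFunc k) L - finrank (RatFunc k) L / e v) *
        ((S.locFactor v (A (PA f g h)) (A (PB f g h))).map
          (Int.castRingHom (ZMod ℓ))).rootMultiplicity ((Nat.card k : ℕ) : ZMod ℓ)⁻¹ = 0 := by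
      refine Finset.sum_eq_zero fun v hvB => ?_
      by_cases he : e v = 1
      · rw [he, Nat.div_one, Nat.sub_self, zero_mul]
      · have h2 : ((S.locFactor v (A (PA f g h)) (A (PB f g h))).map
            (Int.castRingHom (ZMod ℓ))).rootMultiplicity ((Nat.card k : ℕ) : ZMod ℓ)⁻¹ = 0 := by
          apply Polynomial.rootMultiplicity_eq_zero
          intro h3
          have h4 := points_eq hℓk v (A (PA f g h)) (A (PB f g h))
          rw [IsRoot.def] at h3
          rw [h3, zero_mul] at h4
          exact hv v hvB he ((ZMod.intCast_zmod_eq_zero_iff_dvd _ _).1 h4.symm)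
        rw [h2, mul_zero]
    rw [e1, e2, mul_zero, add_zero] at h1
    have i5 : Module.Finite k k' := Module.Finite.of_finite
    have h5 : finrank k k' * m = 0 := by omega
    exact (Nat.mul_eq_zero.1 h5).resolve_left finrank_pos.ne'
  · rintro η hη rfl hodd P hP
    have hirr := ((hSR.first P).1 hP).2.1
    unfold eps
    have h1 : ¬ P ∣ (C η : k[X]) := by
      intro h1
      have hη0 : η ≠ 0 := by
        rintro rfl
        exact hη ⟨0, by ring⟩
      exact hirr.not_isUnit (isUnit_of_dvd_unit h1 (isUnit_C.2 (IsUnit.mk0 _ hη0)))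
    rw [if_neg h1]
    exact sgn_const hirr (hodd P hP) hη

end Pool.Agent.Results.MP_ff7320_nt.ConicBundleTowers
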