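import Mathlib
import Pool.Agent.TH115.GD.Defs
import Pool.Agent.X243.CD.FinK

/-!
# Towers of Kummer pullbacks with constant rank over finite fields, for all elliptic curves with a point of
# order two and complete descent

Let `k` be a finite field with `q` elements, `q` odd, and `E₀ : y² = x (x² + a x + b)` an elliptic curve
over `K₀ = k(s)` with the following properties (`BaseT`, `CompleteT`), where `d = a² - 4 b` belongs to the
isogenous curve: `b d ≠ 0` and all roots of `b d` are in `k`; each of `b` and `d` has a root of odd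
multiplicity; and both first descents over `k(s)` are complete: for all monic squarefree divisors `A` of
`b` which satisfy the parity condition at `s = ∞` (`InfT`) there is a point `P` in `E₀(k(s))` with
`x(P) = A` up to constants of `k` and squares of `k(s)` (where `x(0, 0)` has to be read as `b`), and the
same holds for the isogenous curve `y² = x (x² - 2 a x + d)` and the divisors of `d`. Let `r` be the
number of roots of `b d`.

Theorem. (1) Let `Λ` be a finite set of odd prime divisors of `q - 1` such that the sum of the numbers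
`r ((q - 1) / ℓ + 1)`, `ℓ` in `Λ`, is less than `q` (for example `Λ = {ℓ}` with an odd prime divisor
`ℓ > r` of `q - 1`, for large `q`). Then there is an element `c` of `k` such that for ALL integers `n`
whose prime divisors are in `Λ` and ALL algebraic extensions `L` of `k` with elements of degrees prime
to `n` the following holds for the pullback

`E : y² = x (x² + a(t ^ n + c) x + b(t ^ n + c))`

of `E₀` over `L(t)`.

(i) The Tate conjecture for divisors at 2 holds for the elliptic surface of `E` over `L` (`TateAtTwo`); for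
finite `L` this is the Birch and Swinnerton-Dyer conjecture for `E / L(t)` (Artin, Tate, Milne).

(ii) `E(L(t)) = 2 E(L(t)) + E₀(k(s))`, where `E₀(k(s))` is embedded by `s = t ^ n + c`: every point of
`E` over `L(t)` is `2 Q + P₁ + P₂` with points `P₁`, `P₂` with coordinates in `k(s)`. So for finite `L` the
rank of `E(L(t))`, which is the order of vanishing of the `L`-function, is the rank of `E₀(k(s))`, for all
layers of the tower and all `L`.

(iii) If the parity conditions at infinity of `E₀` are empty (`NoInf`: there is no `m` such that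
`deg a ≤ 2 m` and `deg b = 4 m` or `deg d = 4 m`), every class of 2-power order in `H¹(L(t), E)` which is
trivial over the completions of `L(t)` at all finite places is zero. So the Tate-Shafarevich group has no
element of order two.

(2) The following curves `E₀` have the properties, including `NoInf`; they are universal for a point of
order two, of rank one and (in general) of rank two over `k(s)`.

`y² = x (x² + x + s)`;

`y² = x (x² + (w² + α + β - 2 s) x + (s - α) (s - β))` with `w ≠ 0`, `α ≠ β`, with the points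
`(s - α, w (s - α))`, `(s - β, w (s - β))`;

`y² = x (x² - 2 ((1 + μ + μ²) s + μ² (1 + μ)²) x + (s + (1 + μ)²) (s + μ² (1 + μ)²) (s + μ²))` with
`μ ≠ 0, -1`, with the points `(c² z, c s z)` for `(c, z) = (μ, s + (1 + μ)²)`,
`(1, s + μ² (1 + μ)²)`, `(1 + μ, s + μ²)`.
-/

namespace Pool.Agent.Results.MP_ff7320_nt.KummerTowers

open Polynomial Pool.Agent.TH115.GD Pool.Agent.X243.Gen Pool.Agent.X243.CD Pool.Agent.W309
open scoped Classical

/-- The conclusions for the pullback of `y² = x (x² + a x + b)` by `s = g(t)` over `K = L(t)` (`L'` is an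
algebraic closure of `L`, `F = L'(t)`). -/
def Holds {k L : Type} [Field k] [Field L] [Algebra k L] (K₀ L' K F : Type) [Field K₀]
    [Algebra k[X] K₀] [Field L'] [Algebra L L'] [Field K] [Algebra L[X] K]
    [IsFractionRing L[X] K] [Field F] [Algebra L'[X] F] [IsFractionRing L'[X] F] [Algebra K F]
    (a b : k[X]) (g : L[X]) : Prop :=
  TateAtTwo (F := F) L' (pullCurve K a b g) ∧ PointsFromBase K₀ K a b g ∧
    (NoInf a b → Sha.ShaTwoTrivial L[X] (pullCurve K a b g))

/-- The element `c` is good for all integers `n` whose prime divisors are in `Λ`. -/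
def GoodShift {k : Type} [Field k] (K₀ : Type) [Field K₀] [Algebra k[X] K₀] (a b : k[X])
    (Λ : Finset ℕ) (c : k) : Prop :=
  ∀ n : ℕ, (∀ p : ℕ, p.Prime → p ∣ n → p ∈ Λ) →
    ∀ (L L' K F : Type) [Field L] [Field L'] [Algebra L L'] [Field K] [Algebra L[X] K]
    [IsFractionRing L[X] K] [Field F] [Algebra L'[X] F] [IsFractionRing L'[X] F] [Algebra K F]
    [Algebra k L] [Algebra.IsAlgebraic k L], IsTower L L' K F →
      (∀ y : L, n.Coprime (minpoly k y).natDegree) →
      Holds K₀ L' K F a b (X ^ n + C (algebraMap k L c))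

/-- The three families of examples. -/
def Example {k : Type} [Field k] (a b : k[X]) : Prop :=
  (a = 1 ∧ b = X) ∨
  (∃ w α β : k, w ≠ 0 ∧ α ≠ β ∧ a = C (w ^ 2 + α + β) - 2 * X ∧ b = (X - C α) * (X - C β)) ∨
  (∃ μ : k, μ ≠ 0 ∧ μ ≠ -1 ∧ a = -2 * (C (1 + μ + μ ^ 2) * X + C (μ * (1 + μ)) ^ 2) ∧
    b = (X + C (1 + μ) ^ 2) * (X + C (μ * (1 + μ)) ^ 2) * (X + C μ ^ 2))

theorem result :
    (∀ (k K₀ : Type) [Field k] [Finite k] [Field K₀] [Algebra k[X] K₀] [IsFractionRing k[X] K₀],
      (2 : k) ≠ 0 → ∀ a b : k[X], BaseT K₀ a b →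
        ∀ Λ : Finset ℕ, (∀ ℓ ∈ Λ, ℓ.Prime ∧ ℓ ≠ 2 ∧ ℓ ∣ Nat.card k - 1) →
        (b * (a ^ 2 - 4 * b)).roots.toFinset.card * ∑ ℓ ∈ Λ, ((Nat.card k - 1) / ℓ + 1) <
          Nat.card k →
        ∃ c : k, GoodShift K₀ a b Λ c) ∧
    (∀ (k K₀ : Type) [Field k] [Field K₀] [Algebra k[X] K₀] [IsFractionRing k[X] K₀],
      (2 : k) ≠ 0 → ∀ a b : k[X], Example a b → BaseT K₀ a b ∧ NoInf a b) := by
  constructor
  swap
  · rintro k K₀ _ _ _ _ h2 a b (⟨rfl, rfl⟩ | ⟨w, α, β, hw, hαβ, rfl, rfl⟩ | ⟨μ, hμ, hμ1, rfl, rfl⟩)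
    · exact baseT0 h2
    · exact baseT1 h2 hw hαβ
    · exact baseT2 h2 hμ hμ1
  intro k K₀ _ _ _ _ _ h2 a b hB Λ hΛ hS
  have := Fintype.ofFinite k
  rw [Nat.card_eq_fintype_card] at hS
  have hΛ' : ∀ ℓ ∈ Λ, ℓ.Prime ∧ ℓ ∣ Fintype.card k - 1 := fun ℓ hℓ => by
    obtain ⟨h1, -, h3⟩ := hΛ ℓ hℓ
    rw [Nat.card_eq_fintype_card] at h3
    exact ⟨h1, h3⟩
  obtain ⟨c, hc⟩ := exists_shift_all hΛ' _ hS
  have hbd : b * (a ^ 2 - 4 * b) ≠ 0 := mul_ne_zero hB.hb hB.hd
  refine ⟨c, ?_⟩
  intro n hn L L' K F _ _ _ _ _ _ _ _ _ _ _ _ hT hdeg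
  refine kummer_pull (k := k) (K₀ := K₀) (odd_of_primes (fun ℓ hℓ => (hΛ ℓ hℓ).2.1) hn)
    (cast_ne_of_primes hΛ' hn) hdeg hT h2 hB (c := c) (fun ξ hξ => ?_)
  intro p hp hpd y
  exact hc ξ (by rw [Multiset.mem_toFinset, mem_roots hbd]; exact hξ) p (hn p hp hpd) y

end Pool.Agent.Results.MP_ff7320_nt.KummerTowers
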