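import Pool.Agent.X261.MF.Kum

/-!
Elliptic curves over `k(t)` without points of order two whose rank is two in all layers of a Kummer tower,
and superelliptic curves of rank `m (q - 1)`. The definitions of the Jacobian, of the statement of the Tate
conjecture and of the triviality of the Tate-Shafarevich group are in `Pool.Agent.Y160.SL.Jac`, `IsBasisAt`
is in `Pool.Agent.Y160.SL.Fam`.
-/

set_option autoImplicit false

open Polynomial IsDedekindDomain
open scoped Classical

namespace Pool.Agent.Results.MP_ff7320_nt.KummerTowersRankTwo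

open Pool.Agent.TH115.GD (IsTower)
open Pool.Agent.Y160.SL (Jac TateAt ShaTriv IsBasisAt)

section defs

variable {k : Type} [Field k]

/-- The polynomial `u(t) = -(t ^ N + a)`. -/
noncomputable def param (a : k) (N : ℕ) : k[X] := -(X ^ N + C a)

/-- The polynomial `u ^ (n j) h(x / u ^ j) + u ^ (n j + 1)` in `x` over `k[t]`, where `u` is in `k[t]` and
`n` is the degree of `h` in `k[x]`. -/
noncomputable def family (h : k[X]) (j : ℕ) (u : k[X]) : k[X][X] :=
  (h.map C + C u).scaleRoots (u ^ j)

/-- The conclusions for the curve `w ^ q = G(x)` over `K = k(t)`: the Tate conjecture at `p` for the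
surface of this equation, `Ш(J / K)[p ^ ∞] = 0` for the Jacobian `J`, and a basis of `J(K)` at `p` with
`r (q - 1)` elements. -/
def Holds (p q r : ℕ) (k k' F : Type) {K : Type} [Field k] [Field k'] [Field K] [Field F]
    [Algebra K F] [Algebra k[X] K] [IsFractionRing k[X] K] [Algebra k'[X] F]
    [IsFractionRing k'[X] F] (G : K[X]) : Prop :=
  TateAt (F := F) p q k' G ∧ ShaTriv p q k[X] G ∧
    ∃ b : Fin (r * (q - 1)) → Jac q G K, IsBasisAt p b

/-- The polynomial `h` is the product of the different monic irreducible polynomials `h_i` of degrees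
prime to `p`, the degree of `h` is prime to `p`, the polynomial `h - a` is irreducible and separable, `-a`
is not a `p`-th power, and `-1` is a square if `p = 2`. -/
structure IsGood (p : ℕ) {r : ℕ} (h : Fin r → k[X]) (a : k) : Prop where
  monic : ∀ i, (h i).Monic
  irreducible : ∀ i, Irreducible (h i)
  degrees : ∀ i, p.Coprime (h i).natDegree
  distinct : Function.Injective h
  degree : p.Coprime (∏ i, h i).natDegree
  not_pow : ∀ v : k, -a ≠ v ^ p
  shift : Irreducible (∏ i, h i - C a)
  separable : (∏ i, h i - C a).Separable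
  four : p = 2 → IsSquare (-1 : k)

end defs

theorem holds_of {k k' K F : Type} [Field k] [Field k'] [Field K] [Field F] [Algebra K F]
    [Algebra k[X] K] [IsFractionRing k[X] K] [Algebra k'[X] F] [IsFractionRing k'[X] F]
    {p q r : ℕ} {G : K[X]} (h : Pool.Agent.Y160.SL.Concl p q r k k' F G) :
    Holds p q r k k' F G := by
  obtain ⟨D, hD1, hD2⟩ := h.basis
  let e : Fin (r * (q - 1)) ≃ Fin r × Fin (q - 1) := finProdFinEquiv.symm
  refine ⟨h.tate, h.sha, fun i => D (e i), hD1.comp _ e.injective, fun n x => ?_⟩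
  obtain ⟨y, hy⟩ := hD2 n x
  refine ⟨y, ?_⟩
  have e1 : Set.range (fun i => D (e i)) = Set.range D := e.surjective.range_comp D
  rw [e1]
  exact hy

theorem main {k : Type} [Field k] {p s m : ℕ} (hp : p.Prime) {ζ : k}
    (hζ : IsPrimitiveRoot ζ (p ^ (s + 1))) {h : Fin (m + 1) → k[X]} {a : k} (hG : IsGood p h a)
    {j : ℕ} (hj : p ^ (s + 1) ∣ (∏ i, h i).natDegree * j + 1) (b : ℕ)
    {kb K F : Type} [Field kb] [Algebra k kb] [Field K] [Algebra k[X] K]
    [IsFractionRing k[X] K] [Field F] [Algebra kb[X] F] [IsFractionRing kb[X] F] [Algebra K F]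
    (hT : IsTower k kb K F) :
    Holds p (p ^ (s + 1)) m k kb F
      ((family (∏ i, h i) j (param a (p ^ b))).map (algebraMap k[X] K)) := by
  have h1 := Pool.Agent.X261.MF.kumG hT hp hζ hG.four hG.monic hG.irreducible hG.degrees hG.distinct
    hG.degree hG.not_pow hG.shift hG.separable hj b
  have e : (family (∏ i, h i) j (param a (p ^ b))) =
      (C (Pool.Agent.X261.MF.PK a (p ^ b)) + ∏ i, (h i).map C : k[X][X]).scaleRoots
        ((Pool.Agent.X261.MF.PK a (p ^ b)) ^ j) := by
    unfold family
    rw [Polynomial.map_prod, add_comm]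
    rfl
  rw [e]
  exact holds_of h1

theorem scale_lin {R : Type} [CommRing R] [Nontrivial R] (a s : R) :
    (X - C a).scaleRoots s = X - C (a * s) := by
  ext i
  rw [coeff_scaleRoots, natDegree_X_sub_C, coeff_sub, coeff_sub, coeff_X, coeff_C, coeff_C]
  rcases i with _ | _ | i
  · simp
  · simp
  · simp

theorem cubic_eq {k : Type} [Field k] (r : Fin 3 → k) (u : k[X]) :
    family (∏ i, (X - C (r i))) 1 u = ∏ i, (X - C (C (r i) * u)) + C (u ^ 4) := by
  unfold family
  rw [pow_one, Polynomial.map_prod, add_comm]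
  have e : ∀ i, (X - C (r i)).map (C : k →+* k[X]) = X - C (C (r i)) := by
    intro i
    rw [Polynomial.map_sub, map_X, map_C]
  rw [Finset.prod_congr rfl fun i _ => e i]
  have hd : (C u + ∏ i : Fin 3, (X - C (C (r i))) : k[X][X]).natDegree = 3 := by
    rw [natDegree_C_add, natDegree_prod_of_monic _ _ fun i _ => monic_X_sub_C _]
    simp
  rw [Pool.Agent.X261.MF.scale_eq (f := C u + ∏ i : Fin 3, (X - C (C (r i)))) rfl, hd,
    Fin.prod_univ_three, Fin.prod_univ_three, mul_scaleRoots_of_noZeroDivisors,
    mul_scaleRoots_of_noZeroDivisors, scale_lin, scale_lin, scale_lin, add_comm]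
  congr 2
  ring

theorem good_cubic {k : Type} [Field k] (h4 : IsSquare (-1 : k)) {r : Fin 3 → k}
    (hr : Function.Injective r) {a : k} (ha : ∀ v : k, -a ≠ v ^ 2)
    (hv : ∀ v : k, ∏ i, (v - r i) ≠ a) : IsGood 2 (fun i => X - C (r i)) a := by
  have hd : (∏ i : Fin 3, (X - C (r i))).natDegree = 3 := by
    rw [natDegree_prod_of_monic _ _ fun i _ => monic_X_sub_C _]
    simp
  have hd2 : (∏ i : Fin 3, (X - C (r i)) - C a).natDegree = 3 := by rw [natDegree_sub_C, hd]
  have hirr : Irreducible (∏ i : Fin 3, (X - C (r i)) - C a) := by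
    rw [irreducible_iff_roots_eq_zero_of_degree_le_three (by omega) (by omega)]
    refine Multiset.eq_zero_of_forall_notMem fun v h => ?_
    have h1 := (mem_roots'.1 h).2
    rw [IsRoot.def, eval_sub, eval_C, eval_prod] at h1
    simp only [eval_sub, eval_X, eval_C] at h1
    exact hv v (sub_eq_zero.1 h1)
  have hs : (∏ i : Fin 3, (X - C (r i))).Separable := separable_prod_X_sub_C_iff.2 hr
  refine ⟨fun i => monic_X_sub_C _, fun i => irreducible_X_sub_C _, fun i => ?_, fun i i' h => ?_, ?_,
    ha, hirr, ?_, fun _ => h4⟩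
  · rw [natDegree_X_sub_C]
    exact Nat.coprime_one_right 2
  · exact hr (C_injective (sub_right_injective h))
  · show Nat.Coprime 2 (∏ i : Fin 3, (X - C (r i))).natDegree
    rw [hd]
    norm_num
  · show (∏ i : Fin 3, (X - C (r i)) - C a).Separable
    rw [separable_iff_derivative_ne_zero hirr, derivative_sub, derivative_C, sub_zero]
    intro h0
    rw [Polynomial.separable_def, h0, isCoprime_zero_right] at hs
    have := natDegree_eq_zero_of_isUnit hs
    omega

/-- **Rank `m (q - 1)` in all layers of a Kummer tower.**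

1. Let `p` be a prime number, `q = p ^ (s + 1)`, `k` a field which contains the `q`-th roots of unity,
`h = h_0 ... h_m` in `k[x]` and `a` in `k` as in `IsGood`, `n` the degree of `h`, and `q ∣ n j + 1`. Let `C`
be the curve `w ^ q = u ^ (n j) h(x / u ^ j) + u ^ (n j + 1)` over `k(u)` with the Jacobian `J`. Then for
all layers `K = k(t)`, `t ^ (p ^ b) = -u - a`, of the Kummer tower, `b ≥ 0`, the rank of `J(K)` is
`m (q - 1)` (there is a basis at `p` with `m (q - 1)` elements), `Ш(J / K)[p ^ ∞] = 0`, and the Tate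
conjecture at `p` holds over `k` for the surface of this equation over `K`.

2. Let the characteristic of `k` be not two, `-1` a square in `k`, `r_0`, `r_1`, `r_2` different elements
and `a` an element of `k` such that `-a` is not a square in `k` and `(x - r_0) (x - r_1) (x - r_2) = a` has
no solution in `k`. Then 1. holds with `p = q = 2`, for the elliptic curve
`E : y ^ 2 = (x - r_0 u) (x - r_1 u) (x - r_2 u) + u ^ 4` over `k(u)`, which has no points of order two:
the rank of `E(K)` is two in all layers.

3. This applies to the fields with `5 ^ r` elements, `r` prime to `6`, for `r_i = 0, 1, 2` and `a = 3`. -/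
theorem result :
    (∀ (p s : ℕ), p.Prime → ∀ (k : Type) [Field k] (ζ : k), IsPrimitiveRoot ζ (p ^ (s + 1)) →
      ∀ (m : ℕ) (h : Fin (m + 1) → k[X]) (a : k), IsGood p h a →
      ∀ j : ℕ, p ^ (s + 1) ∣ (∏ i, h i).natDegree * j + 1 → ∀ b : ℕ,
      ∀ (kb K F : Type) [Field kb] [Algebra k kb] [Field K] [Algebra k[X] K]
        [IsFractionRing k[X] K] [Field F] [Algebra kb[X] F] [IsFractionRing kb[X] F] [Algebra K F],
        IsTower k kb K F → Holds p (p ^ (s + 1)) m k kb F
          ((family (∏ i, h i) j (param a (p ^ b))).map (algebraMap k[X] K))) ∧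
    (∀ (k : Type) [Field k], (2 : k) ≠ 0 → IsSquare (-1 : k) → ∀ r : Fin 3 → k,
      Function.Injective r → ∀ a : k, (∀ v : k, -a ≠ v ^ 2) → (∀ v : k, ∏ i, (v - r i) ≠ a) →
      ∀ b : ℕ, ∀ (kb K F : Type) [Field kb] [Algebra k kb] [Field K] [Algebra k[X] K]
        [IsFractionRing k[X] K] [Field F] [Algebra kb[X] F] [IsFractionRing kb[X] F] [Algebra K F],
        IsTower k kb K F → Holds 2 2 2 k kb F
          ((∏ i, (X - C (C (r i) * param a (2 ^ b))) + C (param a (2 ^ b) ^ 4) :
            k[X][X]).map (algebraMap k[X] K))) ∧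
    (∀ (k : Type) [Field k] [Finite k] (r : ℕ), Nat.card k = 5 ^ r → r.Coprime 6 →
      (2 : k) ≠ 0 ∧ IsSquare (-1 : k) ∧ Function.Injective ![(0 : k), 1, 2] ∧
        (∀ v : k, -(3 : k) ≠ v ^ 2) ∧ ∀ v : k, ∏ i, (v - (![(0 : k), 1, 2] : Fin 3 → k) i) ≠ 3) := by
  refine ⟨?_, ?_, ?_⟩
  · intro p s hp k _ ζ hζ m h a hG j hj b kb K F _ _ _ _ _ _ _ _ _ hT
    exact main hp hζ hG hj b hT
  · intro k _ h2 h4 r hr a ha hv b kb K F _ _ _ _ _ _ _ _ _ hT
    have hζ : IsPrimitiveRoot (-1 : k) (2 ^ (0 + 1)) := by
      rw [zero_add, pow_one]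
      refine IsPrimitiveRoot.neg_one (ringChar k) fun h => h2 ?_
      have h3 := ringChar.spec k 2
      rw [h] at h3
      exact_mod_cast h3.2 dvd_rfl
    have hd : (∏ i : Fin 3, (X - C (r i))).natDegree = 3 := by
      rw [natDegree_prod_of_monic _ _ fun i _ => monic_X_sub_C _]
      simp
    have h1 := main (s := 0) (m := 2) Nat.prime_two hζ (good_cubic h4 hr ha hv) (j := 1)
      (by rw [hd]; norm_num) b hT
    rw [cubic_eq] at h1
    exact h1
  · intro k _ _ r hr h6
    have hc := Pool.Agent.X261.MF.charP_of (by norm_num : Nat.Prime 5) hr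
    have h5 : (5 : k) = 0 := by
      have := CharP.cast_eq_zero k 5
      exact_mod_cast this
    have h2 : (2 : k) ≠ 0 := by
      intro h0
      have h1 : (1 : k) = 0 := by linear_combination h5 - 2 * h0
      exact one_ne_zero h1
    refine ⟨h2, ⟨2, by linear_combination (-1) * h5⟩, ?_, Pool.Agent.X261.MF.not_sq5 hr h6, ?_⟩
    · intro i i' h
      fin_cases i <;> fin_cases i' <;> simp at h ⊢
      · exact h2 h.symm
      · have h1 : (1 : k) = 0 := by linear_combination -h
        exact one_ne_zero h1
      · exact h2 h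
      · have h1 : (1 : k) = 0 := by linear_combination h
        exact one_ne_zero h1
    · intro v hv
      have hirr := Pool.Agent.X261.MF.irr5 hr h6
      have hroot : IsRoot (X * (X - C 1) * (X - C 2) - C 3 : k[X]) v := by
        rw [Fin.prod_univ_three] at hv
        simp only [Matrix.cons_val_zero, Matrix.cons_val_one, Matrix.cons_val] at hv
        rw [IsRoot.def, eval_sub, eval_mul, eval_mul, eval_sub, eval_sub, eval_X, eval_C, eval_C,
          eval_C]
        linear_combination hv
      have h7 := natDegree_eq_of_degree_eq_some (degree_eq_one_of_irreducible_of_root hirr hroot)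
      rw [natDegree_sub_C, natDegree_mul (mul_ne_zero X_ne_zero (X_sub_C_ne_zero _))
        (X_sub_C_ne_zero _), natDegree_mul X_ne_zero (X_sub_C_ne_zero _), natDegree_X,
        natDegree_X_sub_C, natDegree_X_sub_C] at h7
      exact absurd h7 (by norm_num)

end Pool.Agent.Results.MP_ff7320_nt.KummerTowersRankTwo
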